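import Mathlib
import Pool.Agent.Y278.MK.Stm

/-!
# END: the analytic continuation argument
-/

set_option autoImplicit false

namespace Pool.Agent.Y275.MK

open MeasureTheory Set Real Filter Topology
open scoped ContDiff
open Pool.Agent.Y278.MK

theorem c1_deriv {f : ℝ → ℝ} (h : ContDiff ℝ 2 f) : ContDiff ℝ 1 (deriv f) := by
  have h2 : (2 : WithTop ℕ∞) = 1 + 1 := by norm_num
  rw [h2] at h
  exact (contDiff_succ_iff_deriv.mp h).2.2

theorem deriv_comb {h k : ℝ → ℝ} (hh : Differentiable ℝ h) (hk : Differentiable ℝ k) (t : ℝ) :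
    deriv (fun θ => h θ + t * k θ) = fun θ => deriv h θ + t * deriv k θ := by
  funext x
  have h1 : HasDerivAt (fun θ => h θ + t * k θ) (deriv h x + t * deriv k x) x :=
    (hh x).hasDerivAt.add ((hk x).hasDerivAt.const_mul t)
  exact h1.deriv

theorem rho_comb {h k : ℝ → ℝ} (hh : C2P h) (hk : C2P k) (t x : ℝ) :
    rho (fun θ => h θ + t * k θ) x = rho h x + t * rho k x := by
  have dh : Differentiable ℝ h := hh.1.differentiable (by norm_num)
  have dk : Differentiable ℝ k := hk.1.differentiable (by norm_num)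
  have dh' : Differentiable ℝ (deriv h) := (c1_deriv hh.1).differentiable (by norm_num)
  have dk' : Differentiable ℝ (deriv k) := (c1_deriv hk.1).differentiable (by norm_num)
  unfold rho
  rw [deriv_comb dh dk t, deriv_comb dh' dk' t]
  ring

theorem yy_comb {h k : ℝ → ℝ} (hh : C2P h) (hk : C2P k) (t x : ℝ) :
    yy (fun θ => h θ + t * k θ) x = yy h x + t * yy k x := by
  have dh : Differentiable ℝ h := hh.1.differentiable (by norm_num)
  have dk : Differentiable ℝ k := hk.1.differentiable (by norm_num)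
  unfold yy
  rw [deriv_comb dh dk t]
  ring

theorem c2p_comb {h k : ℝ → ℝ} (hh : C2P h) (hk : C2P k) (t : ℝ) :
    C2P (fun θ => h θ + t * k θ) := by
  refine ⟨hh.1.add (contDiff_const.mul hk.1), fun x => ?_⟩
  change h (x + 2 * π) + t * k (x + 2 * π) = h x + t * k x
  rw [hh.2 x, hk.2 x]

theorem cont_rho {h : ℝ → ℝ} (hh : C2P h) : Continuous (rho h) :=
  hh.1.continuous.add ((c1_deriv hh.1).continuous_deriv le_rfl)

theorem area_comb {h k : ℝ → ℝ} (hh : C2P h) (hk : C2P k) : ∃ A0 A1 : ℝ, ∀ t : ℝ,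
    area (fun θ => h θ + t * k θ) = A0 + A1 * t + area k * t ^ 2 := by
  have ch := hh.1.continuous
  have ck := hk.1.continuous
  have crh := cont_rho hh
  have crk := cont_rho hk
  refine ⟨(1 / 2) * ∫ θ in (0 : ℝ)..(2 * π), h θ * rho h θ,
    (1 / 2) * ∫ θ in (0 : ℝ)..(2 * π), (h θ * rho k θ + k θ * rho h θ), fun t => ?_⟩
  have h1 : (∫ θ in (0 : ℝ)..(2 * π), (fun θ => h θ + t * k θ) θ *
      rho (fun θ => h θ + t * k θ) θ) =
      (∫ θ in (0 : ℝ)..(2 * π), h θ * rho h θ) +
      t * (∫ θ in (0 : ℝ)..(2 * π), (h θ * rho k θ + k θ * rho h θ)) +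
      t ^ 2 * ∫ θ in (0 : ℝ)..(2 * π), k θ * rho k θ := by
    rw [← intervalIntegral.integral_const_mul, ← intervalIntegral.integral_const_mul,
      ← intervalIntegral.integral_add, ← intervalIntegral.integral_add]
    · refine intervalIntegral.integral_congr fun θ _ => ?_
      change (h θ + t * k θ) * rho (fun θ => h θ + t * k θ) θ = _
      rw [rho_comb hh hk]
      ring
    · exact Continuous.intervalIntegrable (by fun_prop) _ _
    · exact Continuous.intervalIntegrable (by fun_prop) _ _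
    · exact Continuous.intervalIntegrable (by fun_prop) _ _
    · exact Continuous.intervalIntegrable (by fun_prop) _ _
  unfold area
  rw [h1]
  ring

theorem area_pos {h : ℝ → ℝ} (hh : C2P h) (h0 : ∀ θ, 0 < h θ) (h1 : ∀ θ, 0 < rho h θ) :
    0 < area h := by
  unfold area
  have h2 : 0 < ∫ θ in (0 : ℝ)..(2 * π), h θ * rho h θ := by
    apply intervalIntegral.intervalIntegral_pos_of_pos_on
    · exact (hh.1.continuous.mul (cont_rho hh)).intervalIntegrable _ _
    · intro x _
      exact mul_pos (h0 x) (h1 x)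
    · positivity
  linarith

/-- the continuation of a function which is holomorphic off three points -/
theorem punct : IsPreconnected ({0, 1, -1}ᶜ : Set ℂ) := by
  have h1 : ({0, 1, -1} : Set ℂ).Countable := Set.to_countable _
  exact (h1.isConnected_compl_of_one_lt_rank (by
    rw [Complex.rank_real_complex]; norm_num)).isPreconnected

theorem end_thm (h1 : S_FFS) (h2 : S_ZW) (_h3 : S_AREA) : S_END := by
  intro h k hh hk h0 k0 rh0 rk0 hnot q t1 hq ht1 hev
  obtain ⟨A0, A1, hA⟩ := area_comb hh hk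
  set c := area k with hc
  have hcpos : 0 < c := area_pos hk k0 rk0
  -- the direction of width zero
  have hk0π : 0 < k 0 + k π := add_pos (k0 0) (k0 π)
  set t0 : ℝ := -(h 0 + h π) / (k 0 + k π) with ht0
  have hg : C2P (fun θ => h θ + t0 * k θ) := c2p_comb hh hk t0
  have hg0 : (fun θ => h θ + t0 * k θ) 0 + (fun θ => h θ + t0 * k θ) π = 0 := by
    change h 0 + t0 * k 0 + (h π + t0 * k π) = 0
    have : t0 * (k 0 + k π) = -(h 0 + h π) := by
      rw [ht0]; field_simp
    linarith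
  have hgl : ¬ ∃ a b : ℝ, ∀ θ, (fun θ => h θ + t0 * k θ) θ = a * cos θ + b * sin θ := by
    rintro ⟨a, b, hab⟩
    refine hnot ⟨-t0, a, b, fun θ => ?_⟩
    have := hab θ
    simp only at this
    linarith
  obtain ⟨hneg, hne⟩ := h2 _ hg hg0 hgl
  rw [hA t0] at hneg
  -- the roots of the quadratic polynomial
  set m : ℝ := -A1 / (2 * c) with hm
  set D : ℝ := m ^ 2 - A0 / c with hD
  have hquad : ∀ t : ℝ, A0 + A1 * t + c * t ^ 2 = c * ((t - m) ^ 2 - D) := by
    intro t
    rw [hD, hm]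
    field_simp
    ring
  have hDt0 : (t0 - m) ^ 2 < D := by
    rw [hquad t0] at hneg
    by_contra hcon
    rw [not_lt] at hcon
    have := mul_nonneg hcpos.le (sub_nonneg.mpr hcon)
    linarith
  have hDpos : 0 < D := lt_of_le_of_lt (sq_nonneg _) hDt0
  set d : ℝ := √D with hd
  have hdpos : 0 < d := Real.sqrt_pos.mpr hDpos
  have hd2 : d ^ 2 = D := Real.sq_sqrt hDpos.le
  have habs : |t0 - m| < d := by
    apply abs_lt_of_sq_lt_sq _ hdpos.le
    rw [hd2]; exact hDt0
  have hApos : ∀ t : ℝ, 0 < t → 0 < A0 + A1 * t + c * t ^ 2 := by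
    intro t ht
    rw [← hA t]
    apply area_pos (c2p_comb hh hk t)
    · intro θ
      have := mul_pos ht (k0 θ)
      have := h0 θ
      linarith
    · intro θ
      rw [rho_comb hh hk]
      have := mul_pos ht (rk0 θ)
      have := rh0 θ
      linarith
  have hmd : m + d ≤ 0 := by
    by_contra hcon
    rw [not_le] at hcon
    have h3 := hApos _ hcon
    rw [hquad, show (m + d - m) ^ 2 = d ^ 2 by ring, hd2, sub_self, mul_zero] at h3
    exact lt_irrefl _ h3
  -- the point over `t1`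
  set y : ℝ := (t1 - m) / d with hy
  have hy1 : 1 < y := by
    rw [hy, lt_div_iff₀ hdpos]; linarith
  set s1 : ℝ := y + √(y ^ 2 - 1) with hs1
  have hy2 : 0 < y ^ 2 - 1 := by nlinarith
  have hs1gt : 1 < s1 := by
    have := Real.sqrt_pos.mpr hy2
    linarith
  have hs1inv : s1⁻¹ = y - √(y ^ 2 - 1) := by
    apply inv_eq_of_mul_eq_one_right
    have := Real.sq_sqrt hy2.le
    rw [hs1]
    nlinarith
  have hts1 : m + d / 2 * (s1 + s1⁻¹) = t1 := by
    rw [hs1inv, hs1, hy]
    field_simp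
    ring
  -- the uniformization
  let U : Set ℂ := {0, 1, -1}ᶜ
  have hUo : IsOpen U := (Set.Finite.isClosed (by simp)).isOpen_compl
  let T : ℂ → ℂ := fun s => (m : ℂ) + (d : ℂ) / 2 * (s + s⁻¹)
  let κ : ℂ → ℂ := fun s => (√q : ℂ) / ((√c : ℂ) * ((d : ℂ) / 2) * (s - s⁻¹))
  let φ : ℂ → ℂ := fun s => ff h k (κ s) (T s)
  have hsc : (√c : ℂ) ≠ 0 := by
    have := Real.sqrt_pos.mpr hcpos
    exact_mod_cast this.ne'
  have hdc : (d : ℂ) ≠ 0 := by exact_mod_cast hdpos.ne'
  have hUmem : ∀ s : ℂ, s ∈ U ↔ s ≠ 0 ∧ s ≠ 1 ∧ s ≠ -1 := by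
    intro s
    simp [U]
  have hUne : ∀ s ∈ U, s ≠ 0 ∧ s - s⁻¹ ≠ 0 := by
    intro s hs
    obtain ⟨ha, hb, hb'⟩ := (hUmem s).mp hs
    refine ⟨ha, fun h3 => ?_⟩
    have h4 : (s - 1) * (s + 1) = 0 := by
      have h5 : s * (s - s⁻¹) = 0 := by rw [h3, mul_zero]
      rw [mul_sub, mul_inv_cancel₀ ha] at h5
      linear_combination h5
    rcases mul_eq_zero.mp h4 with h5 | h5
    · exact hb (sub_eq_zero.mp h5)
    · exact hb' (eq_neg_of_add_eq_zero_left h5)
  have hdiff : DifferentiableOn ℂ φ U := by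
    intro s hs
    obtain ⟨ha, hb⟩ := hUne s hs
    have hT : DifferentiableAt ℂ T s := by
      have : DifferentiableAt ℂ (fun s : ℂ => s⁻¹) s := differentiableAt_inv ha
      fun_prop
    have hκ : DifferentiableAt ℂ κ s := by
      have h3 : DifferentiableAt ℂ (fun s : ℂ => s⁻¹) s := differentiableAt_inv ha
      refine DifferentiableAt.div (differentiableAt_const _) (by fun_prop) ?_
      exact mul_ne_zero (mul_ne_zero hsc (div_ne_zero hdc two_ne_zero)) hb
    have hF : Differentiable ℂ (fun p : ℂ × ℂ => ff h k p.1 p.2) :=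
      (h1 h k hh hk).differentiable (by simp)
    have h4 : DifferentiableAt ℂ ((fun p : ℂ × ℂ => ff h k p.1 p.2) ∘ fun s => (κ s, T s)) s :=
      DifferentiableAt.comp s (hF (κ s, T s)) (hκ.prodMk hT)
    exact h4.differentiableWithinAt
  have hanal : AnalyticOnNhd ℂ φ U := hdiff.analyticOnNhd hUo
  -- real points
  have hreal : ∀ s : ℝ, 1 < s → φ (s : ℂ) = ff h k
      ((√(q / area (fun θ => h θ + (m + d / 2 * (s + s⁻¹)) * k θ)) : ℝ) : ℂ)
      ((m + d / 2 * (s + s⁻¹) : ℝ) : ℂ) := by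
    intro s hs
    have hs0 : 0 < s := by linarith
    have hsinv : s⁻¹ < 1 := inv_lt_one_of_one_lt₀ hs
    have hpos : 0 < s - s⁻¹ := by linarith
    have hsq : √(q / area (fun θ => h θ + (m + d / 2 * (s + s⁻¹)) * k θ)) =
        √q / (√c * (d / 2) * (s - s⁻¹)) := by
      rw [hA, hquad, ← hd2]
      have h5 : c * ((m + d / 2 * (s + s⁻¹) - m) ^ 2 - d ^ 2) =
          c * ((d / 2) * (s - s⁻¹)) ^ 2 := by
        have h6 : s * s⁻¹ = 1 := mul_inv_cancel₀ hs0.ne'
        linear_combination (c * d ^ 2) * h6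
      rw [h5, Real.sqrt_div hq.le, Real.sqrt_mul hcpos.le, Real.sqrt_sq (by positivity)]
      ring
    rw [hsq]
    change ff h k (κ s) (T s) = _
    congr 1
    · simp only [κ]
      push_cast
      rfl
    · simp only [T]
      push_cast
      rfl
  have hs1U : (s1 : ℂ) ∈ U := by
    rw [hUmem]
    refine ⟨?_, ?_, ?_⟩
    · exact_mod_cast (by linarith : s1 ≠ 0)
    · exact_mod_cast hs1gt.ne'
    · exact_mod_cast (by linarith : s1 ≠ -1)
  have hevs : ∀ᶠ s : ℝ in 𝓝 s1, φ (s : ℂ) = 0 := by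
    have hcont : ContinuousAt (fun s : ℝ => m + d / 2 * (s + s⁻¹)) s1 := by
      have : ContinuousAt (fun s : ℝ => s⁻¹) s1 := continuousAt_inv₀ (by linarith)
      fun_prop
    have h5 : Tendsto (fun s : ℝ => m + d / 2 * (s + s⁻¹)) (𝓝 s1) (𝓝 t1) := by
      have := hcont.tendsto
      rw [hts1] at this
      exact this
    filter_upwards [h5.eventually hev, eventually_gt_nhds hs1gt] with s hs hs'
    rw [hreal s hs']
    exact hs
  have hfreq : ∃ᶠ z in 𝓝[≠] (s1 : ℂ), φ z = 0 := by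
    have h5 : Tendsto (fun s : ℝ => (s : ℂ)) (𝓝[≠] s1) (𝓝[≠] (s1 : ℂ)) := by
      apply tendsto_nhdsWithin_of_tendsto_nhds_of_eventually_within
      · exact (Complex.continuous_ofReal.tendsto s1).mono_left nhdsWithin_le_nhds
      · filter_upwards [self_mem_nhdsWithin] with s hs
        intro h6
        exact hs (Complex.ofReal_injective h6)
    refine h5.frequently ?_
    exact (hevs.filter_mono nhdsWithin_le_nhds).frequently
  have hzero := hanal.eqOn_zero_of_preconnected_of_frequently_eq_zero punct hs1U hfreq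
  -- the special point
  set x : ℝ := (t0 - m) / d with hx
  have hx1 : -1 < x ∧ x < 1 := by
    rw [abs_lt] at habs
    constructor
    · rw [hx, lt_div_iff₀ hdpos]; linarith [habs.1]
    · rw [hx, div_lt_iff₀ hdpos]; linarith [habs.2]
  have hw : 0 < 1 - x ^ 2 := by nlinarith [hx1.1, hx1.2]
  set w : ℝ := √(1 - x ^ 2) with hwdef
  have hwpos : 0 < w := Real.sqrt_pos.mpr hw
  have hw2 : w ^ 2 = 1 - x ^ 2 := Real.sq_sqrt hw.le
  let s2 : ℂ := (x : ℂ) + (w : ℂ) * Complex.I
  have hs2inv : s2⁻¹ = (x : ℂ) - (w : ℂ) * Complex.I := by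
    apply inv_eq_of_mul_eq_one_right
    have h5 : ((w ^ 2 : ℝ) : ℂ) = ((1 - x ^ 2 : ℝ) : ℂ) := by rw [hw2]
    push_cast at h5
    change ((x : ℂ) + (w : ℂ) * Complex.I) * ((x : ℂ) - (w : ℂ) * Complex.I) = 1
    linear_combination h5 - (w : ℂ) ^ 2 * Complex.I_sq
  have him : s2.im = w := by simp [s2]
  have hs2U : s2 ∈ U := by
    rw [hUmem]
    refine ⟨?_, ?_, ?_⟩ <;> intro h5 <;> have h6 := congrArg Complex.im h5 <;> rw [him] at h6 <;>
      simp at h6 <;> linarith
  have hval := hzero hs2U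
  simp only [Pi.zero_apply] at hval
  have hT2 : T s2 = (t0 : ℂ) := by
    change (m : ℂ) + (d : ℂ) / 2 * (s2 + s2⁻¹) = _
    rw [hs2inv]
    have h5 : ((d * x : ℝ) : ℂ) = ((t0 - m : ℝ) : ℂ) := by
      congr 1
      rw [hx]; field_simp
    push_cast at h5
    simp only [s2]
    linear_combination h5
  set k' : ℝ := √q / (√c * d * w) with hk'
  have hk'pos : 0 < k' := by
    have := Real.sqrt_pos.mpr hcpos
    have := Real.sqrt_pos.mpr hq
    positivity
  have hκ2 : Complex.I * κ s2 = (k' : ℂ) := by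
    change Complex.I * ((√q : ℂ) / ((√c : ℂ) * ((d : ℂ) / 2) * (s2 - s2⁻¹))) = _
    rw [hs2inv]
    have hwc : (w : ℂ) ≠ 0 := by exact_mod_cast hwpos.ne'
    have h5 : s2 - ((x : ℂ) - (w : ℂ) * Complex.I) = 2 * (w : ℂ) * Complex.I := by
      simp only [s2]; ring
    rw [h5, hk']
    push_cast
    field_simp
  apply hne k' hk'pos.ne'
  rw [← hval]
  change _ = ff h k (κ s2) (T s2)
  unfold ff
  rw [hT2]
  refine intervalIntegral.integral_congr fun θ _ => ?_
  rw [hκ2, rho_comb hh hk, yy_comb hh hk]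
  push_cast
  ring

end Pool.Agent.Y275.MK
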